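import Mathlib

set_option maxHeartbeats 400000

namespace Pool.Agent.H.MP_98fcd2_al

open scoped commutatorElement

variable {r p : ℕ} [Fact p.Prime] (t : (ZMod p)ˣ)

/-- the reflection -/
def al : Equiv.Perm (ZMod r → ZMod p) :=
  Function.Involutive.toPerm (fun f i => if i = 0 then 2 - f i else f i) fun f => by
    ext i; by_cases h : i = 0 <;> simp [h]

theorem al_ap (f : ZMod r → ZMod p) (i : ZMod r) : al f i = if i = 0 then 2 - f i else f i := rfl

theorem al_inv : (al : Equiv.Perm (ZMod r → ZMod p))⁻¹ = al := rfl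

/-- the twisted shifts -/
def ta : Multiplicative ℤ →* Equiv.Perm (ZMod r → ZMod p) where
  toFun m := ⟨fun f i => (t ^ m.toAdd : (ZMod p)ˣ) * f (i - m.toAdd),
    fun f i => (t ^ (-m.toAdd) : (ZMod p)ˣ) * f (i + m.toAdd),
    fun f => by ext i; simp [← mul_assoc, zpow_ne_zero _ t.ne_zero],
    fun f => by ext i; simp [← mul_assoc, zpow_ne_zero _ t.ne_zero]⟩
  map_one' := by ext f i; simp
  map_mul' a b := by ext f i; simp [zpow_add, mul_assoc, sub_sub]

theorem ta_ap (m : Multiplicative ℤ) (f : ZMod r → ZMod p) (i : ZMod r) :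
    ta t m f i = (t ^ m.toAdd : (ZMod p)ˣ) * f (i - m.toAdd) := rfl

/-- the action -/
def ph : FreeGroup Bool →* Equiv.Perm (ZMod r → ZMod p) :=
  FreeGroup.lift fun b => if b then ta t (.ofAdd 1) else al

/-- the degree -/
def deg : FreeGroup Bool →* Multiplicative ℤ := FreeGroup.lift fun b => if b then .ofAdd 1 else 1

theorem shape (s : FreeGroup Bool) : ∃ e w : ZMod r → ZMod p, (∀ i, e i * e i = 1) ∧
    ∀ f i, ph t s f i = e i * (t ^ (deg s).toAdd : (ZMod p)ˣ) * f (i - (deg s).toAdd) + w i := by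
  have a : ∃ e w : ZMod r → ZMod p, (∀ i, e i * e i = 1) ∧ ∀ f i, al f i = e i * f i + w i :=
    ⟨fun i => if i = 0 then -1 else 1, fun i => if i = 0 then 2 else 0,
      fun i => by by_cases h : i = 0 <;> simp [h],
      fun f i => by by_cases h : i = 0 <;> simp [h, al_ap, sub_eq_neg_add]⟩
  induction s using FreeGroup.induction_on with
  | C1 => exact ⟨1, 0, by simp, by simp⟩
  | of b =>
    cases b
    · simpa [ph, deg] using a
    · exact ⟨1, 0, by simp, by simp [ph, deg, ta_ap]⟩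
  | inv_of b _ =>
    cases b
    · simpa [ph, deg, al_inv] using a
    · refine ⟨1, 0, by simp, fun f i => ?_⟩
      simp only [ph, deg, map_inv, FreeGroup.lift_apply_of, if_true]
      rw [← map_inv, ta_ap]
      simp only [Pi.one_apply, Pi.zero_apply, one_mul, add_zero]
  | mul a b ha hb =>
    obtain ⟨e, w, h1, h2⟩ := ha
    obtain ⟨e', w', h3, h4⟩ := hb
    refine ⟨fun i => e i * e' (i - (deg a).toAdd), fun i => e i *
      (t ^ (deg a).toAdd : (ZMod p)ˣ) * w' (i - (deg a).toAdd) + w i, fun i => ?_, fun f i => ?_⟩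
    · rw [mul_mul_mul_comm, h1, h3, one_mul]
    · simp only [map_mul, Equiv.Perm.mul_apply, h2, h4, toAdd_mul, zpow_add, Units.val_mul,
        Int.cast_add, sub_sub]
      ring

/-- translations -/
def Tr : Subgroup (FreeGroup Bool) where
  carrier := {s | ∃ w : ZMod r → ZMod p, ∀ f, ph t s f = f + w}
  one_mem' := ⟨0, by simp⟩
  mul_mem' := fun ⟨w, h⟩ ⟨v, h'⟩ => ⟨v + w, fun f => by simp [h, h', add_assoc]⟩
  inv_mem' := fun ⟨w, h⟩ => ⟨-w, fun f => by
    rw [map_inv, Equiv.Perm.inv_eq_iff_eq, h]; simp⟩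

theorem der : derivedSeries (FreeGroup Bool) 3 ≤ (ph (r := r) t).ker := by
  have h1 : derivedSeries (FreeGroup Bool) 1 ≤ deg.ker := Subgroup.commutator_le.2 fun a _ b _ => by
    simp [commutatorElement_def]
  have h2 : derivedSeries (FreeGroup Bool) 2 ≤ Tr (r := r) t :=
    (Subgroup.commutator_mono h1 h1).trans (Subgroup.commutator_le.2 fun a ha b hb => by
      obtain ⟨e, w, -, h2⟩ := shape (r := r) t a
      obtain ⟨e', w', -, h4⟩ := shape (r := r) t b
      rw [MonoidHom.mem_ker] at ha hb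
      refine ⟨e * w' + w - (e' * w + w'), fun f => ?_⟩
      obtain ⟨f, rfl⟩ := (ph t (b * a)).surjective f
      rw [← Equiv.Perm.mul_apply, ← map_mul, show ⁅a, b⁆ * (b * a) = a * b by
        simp [commutatorElement_def, mul_assoc]]
      ext i
      simp [h2, h4, ha, hb]
      ring)
  refine (Subgroup.commutator_mono h2 h2).trans (Subgroup.commutator_le.2 ?_)
  rintro a ⟨w, h⟩ b ⟨v, h'⟩
  rw [MonoidHom.mem_ker, map_commutatorElement, commutatorElement_eq_one_iff_mul_comm]
  ext f i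
  simp [h, h', add_right_comm]

theorem short [NeZero r] {n : ℕ} (hr : 2 * n < r) (L : List (Bool × Bool)) (h : L.length ≤ n) :
    |(deg (.mk L)).toAdd| ≤ L.length ∧ ph (r := r) t (.mk L) (fun i => (t ^ i.valMinAbs : (ZMod p)ˣ)) =
      ta t (deg (.mk L)) fun i => (t ^ i.valMinAbs : (ZMod p)ˣ) := by
  induction L with
  | nil => simp [← FreeGroup.one_eq_mk]
  | cons x L ih =>
    obtain ⟨h1, h2⟩ := ih (by simp at h; omega)
    rw [show FreeGroup.mk (x :: L) = .mk [x] * .mk L by rw [FreeGroup.mul_mk]; rfl, map_mul deg,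
      map_mul (ph t), map_mul (ta t), Equiv.Perm.mul_apply, Equiv.Perm.mul_apply, h2, toAdd_mul]
    simp only [List.length_cons] at h ⊢
    rw [abs_le] at h1 ⊢
    generalize deg (.mk L) = m at h1 ⊢
    have a : al (ta t m fun i : ZMod r => (t ^ i.valMinAbs : (ZMod p)ˣ)) =
        ta t m fun i => (t ^ i.valMinAbs : (ZMod p)ˣ) := by
      ext i
      rw [al_ap]
      split_ifs with e
      · have : (0 - m.toAdd : ZMod r).valMinAbs = -m.toAdd :=
          (ZMod.valMinAbs_spec _ _).2 ⟨by simp, by constructor <;> omega⟩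
        rw [e, ta_ap, this, ← Units.val_mul, ← zpow_add]
        norm_num
      · rfl
    simp only [Units.val_zpow_eq_zpow_val] at a
    rcases x with ⟨_ | _, _ | _⟩ <;> simp [ph, deg, al_inv, a] <;> omega

theorem fixp {s : FreeGroup Bool} (h : t ^ (2 * r * (deg s).toAdd) ≠ 1) :
    ∃ x : ZMod r → ZMod p, ph t s x = x := by
  obtain ⟨e, w, h1, h2⟩ := shape (r := r) t (s ^ r)
  simp only [map_pow deg, toAdd_pow, nsmul_eq_mul, Int.cast_mul, Int.cast_natCast,
    ZMod.natCast_self, zero_mul, sub_zero] at h2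
  set c := t ^ ((r : ℤ) * (deg s).toAdd)
  have h3 : ∀ i, 1 - e i * c ≠ 0 := fun i e0 => h (Units.ext (by
    rw [mul_assoc, two_mul, zpow_add, Units.val_mul, Units.val_one]
    linear_combination -(1 + e i * c) * e0 - (c : ZMod p) ^ 2 * h1 i))
  have h4 : ∀ f, ph t (s ^ r) f = f ↔ f = fun i => w i / (1 - e i * c) := fun f => by
    simp only [funext_iff, h2]
    refine forall_congr' fun i => ?_
    rw [eq_div_iff (h3 i)]
    exact ⟨fun h => by linear_combination -h, fun h => by linear_combination -h⟩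
  refine ⟨_, (h4 _).1 ?_⟩
  rw [← Equiv.Perm.mul_apply, ← map_mul, ← pow_succ, pow_succ', map_mul, Equiv.Perm.mul_apply,
    (h4 _).2 rfl]

theorem trans [NeZero r] (h2 : (2 : ZMod p) ≠ 0) (h : t ^ (r : ℤ) ≠ 1) (w : ZMod r → ZMod p) :
    ∃ s, ph t s 0 = w := by
  let T : AddSubgroup (ZMod r → ZMod p) :=
    { carrier := {w | ∃ s, ∀ f, ph t s f = f + w}
      zero_mem' := ⟨1, by simp⟩
      add_mem' := fun ⟨a, h⟩ ⟨b, h'⟩ => ⟨b * a, fun f => by simp [h, h', add_assoc]⟩
      neg_mem' := fun ⟨a, h⟩ => ⟨a⁻¹, fun f => by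
        rw [map_inv, Equiv.Perm.inv_eq_iff_eq, h]; simp⟩ }
  have e : ∀ m : ℤ, ph (r := r) t (.of true ^ m) = ta t (.ofAdd m) := fun m => by
    rw [map_zpow, ph, FreeGroup.lift_apply_of, if_pos rfl, ← map_zpow, ← ofAdd_zsmul]
    simp
  have e' : ph (r := r) t (.of false) = al := by simp [ph]
  have h1 : ∀ j : ZMod r, ∃ c, c ≠ 0 ∧ Pi.single j c ∈ T := fun j => by
    obtain ⟨j, rfl⟩ := ZMod.intCast_surjective j
    refine ⟨(t ^ j : (ZMod p)ˣ) * (2 * (1 - (t ^ (r : ℤ) : (ZMod p)ˣ))), mul_ne_zero (Units.ne_zero _)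
      (mul_ne_zero h2 (sub_ne_zero.2 fun e => h (Units.ext e.symm))),
      .of true ^ j * (.of false * (.of true ^ (r : ℤ) * (.of false * (.of true ^ (-r : ℤ) *
        .of true ^ (-j))))), fun f => ?_⟩
    ext i
    simp only [map_mul, e, e']
    simp only [Equiv.Perm.mul_apply, ta_ap, al_ap, toAdd_ofAdd, Pi.add_apply,
      Int.cast_natCast, ZMod.natCast_self, Int.cast_neg, sub_zero, neg_zero, sub_eq_zero,
      Pi.single_apply, zpow_neg, Units.val_inv_eq_inv_val, sub_neg_eq_add, sub_add_cancel]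
    split_ifs <;> field_simp <;> ring
  have : w ∈ T := by
    rw [← Finset.univ_sum_single w]
    refine sum_mem fun j _ => ?_
    obtain ⟨c, h0, hc⟩ := h1 j
    convert nsmul_mem hc (w j / c).val using 1
    rw [← Pi.single_smul']
    simp [h0]
  exact this.imp fun s hs => by simp [hs]

theorem main (S : Finset (FreeGroup Bool ⧸ derivedSeries (FreeGroup Bool) 3)) :
    ∃ g : (FreeGroup Bool ⧸ derivedSeries (FreeGroup Bool) 3) →
      FreeGroup Bool ⧸ derivedSeries (FreeGroup Bool) 3, Subgroup.closure ((fun s => (g s)⁻¹ * s * g s) ''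
        (S : Set (FreeGroup Bool ⧸ derivedSeries (FreeGroup Bool) 3))) ≠ ⊤ := by
  choose l hl using QuotientGroup.mk_surjective (s := derivedSeries (FreeGroup Bool) 3)
  obtain ⟨n, hn, hS⟩ : ∃ n, 0 < n ∧ ∀ s ∈ S, (l s).toWord.length ≤ n :=
    ⟨S.sup (fun s => (l s).toWord.length) + 1, by omega, fun s hs =>
      (Finset.le_sup (f := fun s => (l s).toWord.length) hs).trans (Nat.le_succ _)⟩
  obtain ⟨p, h1, hp⟩ := Nat.exists_infinite_primes (2 ^ (2 * (2 * n + 1) * n) + 2)
  haveI := Fact.mk hp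
  have h2 : (2 : ZMod p) ≠ 0 := fun h => by
    have := Nat.le_of_dvd two_pos ((ZMod.natCast_eq_zero_iff 2 p).1 h)
    have := Nat.two_pow_pos (2 * (2 * n + 1) * n)
    omega
  let t := Units.mk0 _ h2
  have h3 : ∀ m : ℤ, m ≠ 0 → m.natAbs ≤ 2 * (2 * n + 1) * n → t ^ m ≠ 1 := fun m h0 hm e => by
    have : ((2 ^ m.natAbs - 1 : ℕ) : ZMod p) = 0 := by
      have := congrArg Units.val (pow_natAbs_eq_one.2 e)
      rw [Nat.cast_sub (Nat.two_pow_pos _)]
      simpa [t, sub_eq_zero] using this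
    have := Nat.le_of_dvd (Nat.sub_pos_of_lt (Nat.one_lt_two_pow (by omega)))
      ((ZMod.natCast_eq_zero_iff _ p).1 this)
    have := this.trans (Nat.sub_le_sub_right (Nat.pow_le_pow_right two_pos hm) 1)
    generalize 2 ^ (2 * (2 * n + 1) * n) = q at this h1
    omega
  let ψ := QuotientGroup.lift _ (ph (r := 2 * n + 1) t) (der t)
  have h4 : ∀ s, ∃ g, s ∈ S → ψ (g⁻¹ * s * g) 0 = 0 := fun s => by
    by_cases hs : s ∈ S
    · have : ∃ x, ph (r := 2 * n + 1) t (l s) x = x := by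
        have a := hS s hs
        obtain ⟨b, c⟩ := short t (Nat.lt_succ_self _) _ a
        rw [FreeGroup.mk_toWord] at b c
        by_cases h : deg (l s) = 1
        · exact ⟨_, by rw [c, h, map_one]; rfl⟩
        · refine fixp t (h3 _ (mul_ne_zero (by positivity) h) ?_)
          rw [Int.natAbs_mul]
          rw [abs_le] at b
          exact Nat.mul_le_mul (by omega) (by omega)
      obtain ⟨x, hx⟩ := this
      obtain ⟨g, hg⟩ := trans t h2 (h3 _ (by positivity) (by
        rw [Int.natAbs_natCast]; nlinarith)) x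
      refine ⟨g, fun _ => ?_⟩
      rw [← hl s]
      show ph t (g⁻¹ * l s * g) 0 = 0
      rw [map_mul, map_mul, map_inv, Equiv.Perm.mul_apply, Equiv.Perm.mul_apply, hg, hx,
        Equiv.Perm.inv_eq_iff_eq, hg]
    · exact ⟨1, fun h => (hs h).elim⟩
  choose g hg using h4
  refine ⟨g, fun h => ?_⟩
  have k : ⊤ ≤ (MulAction.stabilizer (Equiv.Perm (ZMod (2 * n + 1) → ZMod p))
      (0 : ZMod (2 * n + 1) → ZMod p)).comap ψ := by
    rw [← h, Subgroup.closure_le]
    rintro _ ⟨s, hs, rfl⟩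
    exact hg s hs
  have k' : ph (r := 2 * n + 1) t (.of false) 0 = 0 :=
    k (Subgroup.mem_top ((FreeGroup.of false : FreeGroup Bool) : _ ⧸ _))
  have := congrFun k' 0
  simp [ph, al_ap, h2] at this

theorem solv : IsSolvable (FreeGroup Bool ⧸ derivedSeries (FreeGroup Bool) 3) :=
  ⟨3, eq_bot_iff.2 ((derivedSeries_le_map_derivedSeries (QuotientGroup.mk'_surjective _) 3).trans
    ((Subgroup.map_eq_bot_iff _).2 (QuotientGroup.ker_mk' _).ge).le)⟩

end Pool.Agent.H.MP_98fcd2_al
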